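import Pool.Agent.H8.DS.TarK

/-!
EXC2: countably many directions have a saddle connection that crosses slits.
-/

namespace DS

open Set Data

variable {C S : Type}

/-- The next position, as a function of the direction: `(s, α, β)` stands for `α t + β` on the
slit `s`. -/
noncomputable def exc2Step (X : Data C S) (p : S × ℝ × ℝ) (q : S × ℤ × ℤ) : S × ℝ × ℝ :=
  (q.1,
    (X.len (X.glue p.1) * p.2.1 + (((X.kind (X.comp q.1)).el q.2).1 * X.b q.1 +
      ((X.kind (X.comp q.1)).el q.2).2.2 - X.b (X.glue p.1))) /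
      (((X.kind (X.comp q.1)).el q.2).1 * X.len q.1),
    (X.len (X.glue p.1) * p.2.2 + X.a (X.glue p.1) - ((X.kind (X.comp q.1)).el q.2).1 * X.a q.1 -
      ((X.kind (X.comp q.1)).el q.2).2.1) /
      (((X.kind (X.comp q.1)).el q.2).1 * X.len q.1))

/-- The positions after `n` returns of the leaves that come from end points. -/
def exc2A (X : Data C S) : ℕ → Set (S × ℝ × ℝ)
  | 0 => {p | 0 < p.2.1 ∧ ∃ z : ℝ × ℝ, X.OnEnd (X.comp p.1) z ∧
      p.2.1 = (X.b p.1 - z.2) / X.len p.1 ∧ p.2.2 = (z.1 - X.a p.1) / X.len p.1}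
  | n + 1 => {p | 0 < p.2.1 ∧ ∃ p' ∈ exc2A X n, ∃ q : S × ℤ × ℤ, p = exc2Step X p' q}

theorem exc2_end_countable [Finite S] (X : Data C S) (c : C) :
    {z : ℝ × ℝ | X.OnEnd c z}.Countable := by
  have h1 : (⋃ s : S, ⋃ k : ℤ × ℤ, ({act ((X.kind c).el k) (X.pt s 0),
      act ((X.kind c).el k) (X.pt s 1)} : Set (ℝ × ℝ))).Countable := by
    refine Set.countable_iUnion fun s => Set.countable_iUnion fun k => ?_
    exact (Set.toFinite _).countable
  refine h1.mono ?_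
  rintro z ⟨s, hs, g, ⟨k, hk⟩, hz⟩
  refine mem_iUnion.2 ⟨s, mem_iUnion.2 ⟨k, ?_⟩⟩
  rw [hk]
  exact hz

theorem exc2A_countable [Finite S] (X : Data C S) (n : ℕ) : (exc2A X n).Countable := by
  induction n with
  | zero =>
    have h1 : (⋃ s : S, (fun z : ℝ × ℝ => ((s, (X.b s - z.2) / X.len s,
        (z.1 - X.a s) / X.len s) : S × ℝ × ℝ)) '' {z : ℝ × ℝ | X.OnEnd (X.comp s) z}).Countable :=
      Set.countable_iUnion fun s => (exc2_end_countable X _).image _
    refine h1.mono ?_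
    rintro ⟨s, α, β⟩ ⟨-, z, hz, h2, h3⟩
    refine mem_iUnion.2 ⟨s, ⟨z, hz, ?_⟩⟩
    simp only at h2 h3
    simp only [h2, h3]
  | succ n ih =>
    have h1 : (⋃ q : S × ℤ × ℤ, (fun p => exc2Step X p q) '' (exc2A X n)).Countable :=
      Set.countable_iUnion fun q => ih.image _
    refine h1.mono ?_
    rintro p ⟨-, p', hp', q, hq⟩
    exact mem_iUnion.2 ⟨q, ⟨p', hp', hq.symm⟩⟩

theorem exc2_hit (X : Data C S) (hX : X.Surface) (t : ℝ) (y y' : S × ℝ) (h : X.Hit t y y')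
    (n : ℕ) (α β : ℝ) (hA : (y.1, α, β) ∈ exc2A X n) (hy : y.2 = α * t + β) :
    ∃ α' β', (y'.1, α', β') ∈ exc2A X (n + 1) ∧ y'.2 = α' * t + β' := by
  obtain ⟨-, -, hc, g, ⟨k, hk⟩, h0, hh0, -, he⟩ := h
  have hα : 0 < α := by
    cases n with
    | zero => exact hA.1
    | succ n => exact hA.1
  have hg : 0 < g.1 := deck_pos X hX _ g ⟨k, hk⟩
  have hL := hX.pos (X.glue y.1)
  have hL' := hX.pos y'.1
  have e1 := congrArg Prod.fst he
  have e2 := congrArg Prod.snd he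
  simp only [fwd, act, pt] at e1 e2
  have hGL : 0 < g.1 * X.len y'.1 := mul_pos hg hL'
  refine ⟨(exc2Step X (y.1, α, β) (y'.1, k)).2.1, (exc2Step X (y.1, α, β) (y'.1, k)).2.2, ?_, ?_⟩
  · refine ⟨?_, (y.1, α, β), hA, (y'.1, k), ?_⟩
    · simp only [exc2Step]
      rw [hk]
      apply div_pos _ hGL
      have : 0 < g.1 * X.b y'.1 + g.2.2 - X.b (X.glue y.1) := by linarith
      positivity
    · rfl
  · simp only [exc2Step]
    rw [hk]
    have e3 : h0 = g.1 * X.b y'.1 + g.2.2 - X.b (X.glue y.1) := by linarith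
    rw [hy] at e1
    rw [div_mul_eq_mul_div, ← add_div, eq_div_iff hGL.ne']
    rw [← e3]
    linarith

theorem exc2_hc (X : Data C S) (hX : X.Surface) (t : ℝ) (k : ℕ) : ∀ (y y' : S × ℝ)
    (_ : X.HC t k y y') (n : ℕ) (α β : ℝ) (_ : (y.1, α, β) ∈ exc2A X n)
    (_ : y.2 = α * t + β), ∃ n' α' β', (y'.1, α', β') ∈ exc2A X n' ∧ y'.2 = α' * t + β' := by
  induction k with
  | zero =>
    intro y y' h n α β hA hy
    have h' : y = y' := h
    subst h'
    exact ⟨n, α, β, hA, hy⟩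
  | succ k ih =>
    rintro y y' ⟨y₁, h1, h2⟩ n α β hA hy
    obtain ⟨α', β', hA', hy'⟩ := exc2_hit X hX t y y₁ h1 n α β hA hy
    exact ih y₁ y' h2 (n + 1) α' β' hA' hy'

theorem pf_EXC2 : T_EXC2 := by
  intro C S _ X hX
  have hcount : (⋃ n : ℕ, ⋃ p ∈ exc2A X n, ⋃ e ∈ {z : ℝ × ℝ | X.OnEnd (X.comp (X.glue p.1)) z},
      ({((e.1 - X.a (X.glue p.1)) / X.len (X.glue p.1) - p.2.2) /
        (p.2.1 + (e.2 - X.b (X.glue p.1)) / X.len (X.glue p.1))} : Set ℝ)).Countable := by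
    refine Set.countable_iUnion fun n => ?_
    refine (exc2A_countable X n).biUnion fun p _ => ?_
    exact (exc2_end_countable X _).biUnion fun e _ => Set.countable_singleton _
  refine hcount.mono ?_
  rintro t ⟨s, ξ, n, y, hξ, ⟨z, h, hh, hz, -, he⟩, hc, ⟨h', hh', -, hE⟩⟩
  have hL := hX.pos s
  have e1 := congrArg Prod.fst he
  have e2 := congrArg Prod.snd he
  simp only [fwd, pt] at e1 e2
  have hA0 : (s, (X.b s - z.2) / X.len s, (z.1 - X.a s) / X.len s) ∈ exc2A X 0 := by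
    refine ⟨?_, z, hz, rfl, rfl⟩
    simp only
    apply div_pos _ hL
    linarith
  obtain ⟨n', α, β, hA, hy⟩ := exc2_hc X hX t n (s, ξ) y hc 0 _ _ hA0 (by
    simp only
    rw [div_mul_eq_mul_div, ← add_div, eq_div_iff hL.ne']
    have e3 : h = X.b s - z.2 := by linarith
    rw [← e3]
    linarith)
  have hα : 0 < α := by
    cases n' with
    | zero => exact hA.1
    | succ n' => exact hA.1
  set e : ℝ × ℝ := fwd t (X.pt (X.glue y.1) y.2) h' with hedef
  have e3 : e.1 = X.a (X.glue y.1) + y.2 * X.len (X.glue y.1) + t * h' := rfl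
  have e4 : e.2 = X.b (X.glue y.1) + h' := rfl
  have hL1 := hX.pos (X.glue y.1)
  refine mem_iUnion.2 ⟨n', mem_iUnion₂.2 ⟨(y.1, α, β), hA, mem_iUnion₂.2 ⟨e, hE, ?_⟩⟩⟩
  rw [mem_singleton_iff]
  simp only
  have h5 : e.2 - X.b (X.glue y.1) = h' := by linarith
  have hpos : 0 < α + h' / X.len (X.glue y.1) := by positivity
  rw [h5, eq_div_iff hpos.ne', e3, hy]
  field_simp
  ring

end DS
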