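import Pool.Agent.H8.DS.TarK
import Pool.Agent.H8.DS.TarG

/-!
LFH: local finiteness of the relevant lifts, start in a Hopf torus.
-/

namespace DS

open Set Data

theorem lfh_hopf_kind {C S : Type} (X : Data C S) (hX : X.Surface) (c : C) (hc : X.Hopf c) :
    ∃ l : ℝ, X.kind c = .hopf l ∧ 1 < l := by
  have hg := hX.good c
  cases hk : X.kind c with
  | flat e f => exact absurd hc (by unfold Data.Hopf; rw [hk]; exact fun h => h)
  | hopf l =>
    rw [hk] at hg
    exact ⟨l, rfl, hg⟩

theorem lfh_lel {C S : Type} (X : Data C S) (c : C) (l : ℝ) (hl : X.kind c = .hopf l)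
    (k : Lift S) (hk : X.comp k.1 = c) : X.lel k = (l ^ k.2.1, 0, 0) := by
  unfold Data.lel
  rw [hk, hl]
  rfl

theorem lfh_hgt {C S : Type} (X : Data C S) (c : C) (l : ℝ) (hl : X.kind c = .hopf l)
    (k : Lift S) (hk : X.comp k.1 = c) : X.hgt k = l ^ k.2.1 * X.b k.1 := by
  unfold Data.hgt
  rw [lfh_lel X c l hl k hk]
  simp

theorem lfh_meets {C S : Type} (X : Data C S) (hX : X.Surface) (s : S) (l : ℝ)
    (hl : X.kind (X.comp (X.glue s)) = .hopf l) (t ξ : ℝ) (k : Lift S) :
    X.Meets t s ξ k ↔ X.comp k.1 = X.comp (X.glue s) ∧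
      X.b (X.glue s) < l ^ k.2.1 * X.b k.1 ∧
      l ^ k.2.1 * (X.a k.1 - t * X.b k.1) ≤
        X.a (X.glue s) + ξ * X.len (X.glue s) - t * X.b (X.glue s) ∧
      X.a (X.glue s) + ξ * X.len (X.glue s) - t * X.b (X.glue s) ≤
        l ^ k.2.1 * (X.a k.1 + X.len k.1 - t * X.b k.1) := by
  unfold Data.Meets
  have hL := hX.pos (X.glue s)
  constructor
  · rintro ⟨h1, h2, h3, h4⟩
    have e1 := lfh_hgt X _ l hl k h1
    have e2 := lfh_lel X _ l hl k h1
    unfold Data.q at h3 h4
    rw [div_le_iff₀ hL] at h3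
    rw [le_div_iff₀ hL] at h4
    unfold Data.lft at h3 h4
    unfold Data.wid at h4
    rw [e1] at h2 h3 h4
    rw [e2] at h3 h4
    simp only at h3 h4
    refine ⟨h1, h2, ?_, ?_⟩
    · linarith
    · linarith
  · rintro ⟨h1, h2, h3, h4⟩
    have e1 := lfh_hgt X _ l hl k h1
    have e2 := lfh_lel X _ l hl k h1
    refine ⟨h1, by rw [e1]; exact h2, ?_, ?_⟩
    · unfold Data.q Data.lft Data.wid
      rw [div_le_iff₀ hL, e1, e2]
      simp only
      linarith
    · unfold Data.q Data.lft Data.wid
      rw [le_div_iff₀ hL, e1, e2]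
      simp only
      linarith

theorem pf_LFH (hB : T_HOPFB) : T_LFH := by
  intro C S _ X w hX hU hW t₀ hT s hc
  obtain ⟨l, hl, hl1⟩ := lfh_hopf_kind X hX _ hc
  have hl0 : 0 < l := by linarith
  have hβ0 : 0 ≤ X.b (X.glue s) := hU _ hc
  rcases hβ0.eq_or_lt with hβ | hβ
  · refine ⟨1, one_pos, ∅, by simp, ?_⟩
    intro t ht ξ hξ k hk
    rw [lfh_meets X hX s l hl] at hk
    obtain ⟨h1, h2, -, -⟩ := hk
    have h0 := hB C S X w hX hU hW (X.glue s) k.1 h1.symm hc hβ.symm
    rw [h0, ← hβ] at h2
    simp at h2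
  · have hbpos : ∀ s', X.comp s' = X.comp (X.glue s) → 0 < X.b s' := by
      intro s' hs'
      have h1 : 0 ≤ X.b s' := hU _ (by rw [hs']; exact hc)
      refine lt_of_le_of_ne h1 fun h0 => ?_
      have := hB C S X w hX hU hW s' (X.glue s) hs' (by rw [hs']; exact hc) h0.symm
      exact hβ.ne' this
    set c := X.comp (X.glue s) with hcdef
    set β := X.b (X.glue s) with hβdef
    set Cc := |X.a (X.glue s)| + X.len (X.glue s) + (|t₀| + 1) * β with hCc
    let Φ : S → ℝ := fun s' => min |X.a s' - t₀ * X.b s'| |X.a s' + X.len s' - t₀ * X.b s'| / 2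
    have hΦ : ∀ s', X.comp s' = c → 0 < Φ s' := by
      intro s' hs'
      have he := hT.ends s' (by rw [hs']; exact hc) (hbpos s' hs')
      have h1 : 0 < |X.a s' - t₀ * X.b s'| := abs_pos.2 (sub_ne_zero.2 he.1)
      have h2 : 0 < |X.a s' + X.len s' - t₀ * X.b s'| := abs_pos.2 (sub_ne_zero.2 he.2)
      exact half_pos (lt_min h1 h2)
    -- the radius
    have hη : ∀ᶠ η in nhdsWithin (0 : ℝ) (Ioi 0), (∀ s', X.comp s' = c → η * X.b s' < Φ s') ∧
        η < 1 ∧ 0 < η := by
      have h1 : ∀ᶠ η in nhdsWithin (0 : ℝ) (Ioi 0), ∀ s', X.comp s' = c → η * X.b s' < Φ s' := by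
        rw [Filter.eventually_all]
        intro s'
        by_cases hs' : X.comp s' = c
        · have hlim : Filter.Tendsto (fun η : ℝ => η * X.b s') (nhds 0) (nhds (0 * X.b s')) :=
            (Filter.tendsto_id).mul_const _
          rw [zero_mul] at hlim
          exact (((hlim.eventually_lt_const (hΦ s' hs'))).filter_mono nhdsWithin_le_nhds).mono
            fun η h _ => h
        · exact Filter.Eventually.of_forall fun η h => absurd h hs'
      have h2 : ∀ᶠ η in nhdsWithin (0 : ℝ) (Ioi 0), η < 1 :=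
        (eventually_lt_nhds (one_pos)).filter_mono nhdsWithin_le_nhds
      have h3 : ∀ᶠ η in nhdsWithin (0 : ℝ) (Ioi 0), 0 < η := eventually_mem_nhdsWithin
      exact h1.and (h2.and h3)
    obtain ⟨η, hη1, hη2, hη3⟩ := hη.exists
    -- the exponent
    have hM : ∀ᶠ M : ℕ in Filter.atTop, ∀ s', X.comp s' = c → Cc < l ^ M * Φ s' ∧
        β < l ^ M * X.b s' := by
      rw [Filter.eventually_all]
      intro s'
      by_cases hs' : X.comp s' = c
      · have hp := tendsto_pow_atTop_atTop_of_one_lt hl1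
        have h1 := (hp.atTop_mul_const (hΦ s' hs')).eventually_gt_atTop Cc
        have h2 := (hp.atTop_mul_const (hbpos s' hs')).eventually_gt_atTop β
        exact (h1.and h2).mono fun M h _ => h
      · exact Filter.Eventually.of_forall fun M h => absurd h hs'
    obtain ⟨M, hM⟩ := hM.exists
    have hN : ∀ᶠ N : ℕ in Filter.atTop, ∀ s', X.comp s' = c → (l⁻¹) ^ N * X.b s' < β := by
      rw [Filter.eventually_all]
      intro s'
      by_cases hs' : X.comp s' = c
      · have hp := tendsto_pow_atTop_nhds_zero_of_lt_one (inv_nonneg.2 hl0.le)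
          (inv_lt_one_of_one_lt₀ hl1)
        have h1 := hp.mul_const (X.b s')
        rw [zero_mul] at h1
        exact (h1.eventually_lt_const hβ).mono fun N h _ => h
      · exact Filter.Eventually.of_forall fun N h => absurd h hs'
    obtain ⟨N, hN⟩ := hN.exists
    -- the finite set of lifts
    have hfin : {k : Lift S | X.comp k.1 = c ∧ β < l ^ k.2.1 * X.b k.1 ∧ k.2.1 ≤ (M : ℤ) ∧
        k.2.2 = 0}.Finite := by
      refine Set.Finite.subset ((Set.finite_univ.prod (Set.finite_Icc (-(N : ℤ)) (M : ℤ))).image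
        (fun p : S × ℤ => ((p.1, p.2, 0) : Lift S))) ?_
      rintro ⟨s', m, n⟩ ⟨h1, h2, h3, h4⟩
      simp only at h1 h2 h3 h4
      refine ⟨(s', m), ⟨mem_univ _, ?_, h3⟩, by simp [h4]⟩
      by_contra hlt
      push Not at hlt
      have hb := hbpos s' h1
      have h5 : l ^ m ≤ (l⁻¹) ^ N := by
        rw [← zpow_natCast, inv_zpow']
        exact zpow_le_zpow_right₀ hl1.le (by linarith)
      have h6 := mul_le_mul_of_nonneg_right h5 hb.le
      have h7 := hN s' h1
      linarith
    refine ⟨η, hη3, hfin.toFinset, ?_, ?_⟩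
    · intro k hk
      rw [Set.Finite.mem_toFinset] at hk
      exact ⟨hk.1, by rw [lfh_hgt X _ l hl k hk.1]; exact hk.2.1⟩
    · rintro t ht ξ hξ ⟨s', m, n⟩ hk
      have hk0 := hk
      rw [lfh_meets X hX s l hl] at hk
      obtain ⟨h1, h2, h3, h4⟩ := hk
      simp only at h1 h2 h3 h4
      rw [← hcdef] at h1
      rw [← hβdef] at h2
      have hb := hbpos s' h1
      have hL := hX.pos (X.glue s)
      -- bound for κ
      have hκ : |X.a (X.glue s) + ξ * X.len (X.glue s) - t * β| ≤ Cc := by
        have ht1 : |t| ≤ |t₀| + 1 := by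
          have := abs_sub_abs_le_abs_sub t t₀
          linarith
        have e1 : |ξ * X.len (X.glue s)| ≤ X.len (X.glue s) := by
          rw [abs_mul, abs_of_pos hL, abs_of_pos hξ.1]
          nlinarith [hξ.2]
        have e2 : |t * β| ≤ (|t₀| + 1) * β := by
          rw [abs_mul, abs_of_pos hβ]
          exact mul_le_mul_of_nonneg_right ht1 hβ.le
        calc |X.a (X.glue s) + ξ * X.len (X.glue s) - t * β|
            ≤ |X.a (X.glue s) + ξ * X.len (X.glue s)| + |t * β| := abs_sub _ _
          _ ≤ |X.a (X.glue s)| + |ξ * X.len (X.glue s)| + |t * β| := by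
              gcongr; exact abs_add_le _ _
          _ ≤ Cc := by rw [hCc]; linarith
      have hκ1 := (abs_le.1 hκ).1
      have hκ2 := (abs_le.1 hκ).2
      by_cases hm : m ≤ (M : ℤ)
      · refine ⟨(s', m, 0), ?_, ?_, ?_⟩
        · rw [Set.Finite.mem_toFinset]
          exact ⟨h1, h2, hm, rfl⟩
        · rw [lfh_hgt X _ l hl (s', m, 0) h1, lfh_hgt X _ l hl (s', m, n) h1]
        · rw [lfh_meets X hX s l hl]
          exact ⟨h1, h2, h3, h4⟩
      · push Not at hm
        have hMs := hM s' h1
        have hlM : (l : ℝ) ^ (M : ℤ) ≤ l ^ m := zpow_le_zpow_right₀ hl1.le hm.le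
        have hlM0 : 0 < l ^ (M : ℤ) := zpow_pos hl0 _
        have hlm0 : 0 < l ^ m := zpow_pos hl0 _
        have hMs1 : Cc < l ^ (M : ℤ) * Φ s' := by rw [zpow_natCast]; exact hMs.1
        have hMs2 : β < l ^ (M : ℤ) * X.b s' := by rw [zpow_natCast]; exact hMs.2
        have hΦs := hΦ s' h1
        have htb : |(t - t₀) * X.b s'| < Φ s' := by
          rw [abs_mul, abs_of_pos hb]
          exact lt_of_le_of_lt (mul_le_mul_of_nonneg_right ht.le hb.le) (hη1 s' h1)
        have hΦ1 : 2 * Φ s' ≤ |X.a s' - t₀ * X.b s'| := by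
          have : 2 * Φ s' = min |X.a s' - t₀ * X.b s'| |X.a s' + X.len s' - t₀ * X.b s'| := by
            simp only [Φ]; ring
          rw [this]; exact min_le_left _ _
        have hΦ2 : 2 * Φ s' ≤ |X.a s' + X.len s' - t₀ * X.b s'| := by
          have : 2 * Φ s' = min |X.a s' - t₀ * X.b s'| |X.a s' + X.len s' - t₀ * X.b s'| := by
            simp only [Φ]; ring
          rw [this]; exact min_le_right _ _
        have hA : Φ s' ≤ |X.a s' - t * X.b s'| := by
          have := abs_sub_abs_le_abs_sub (X.a s' - t₀ * X.b s') (X.a s' - t * X.b s')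
          have e : X.a s' - t₀ * X.b s' - (X.a s' - t * X.b s') = (t - t₀) * X.b s' := by ring
          rw [e] at this
          linarith
        have hB' : Φ s' ≤ |X.a s' + X.len s' - t * X.b s'| := by
          have := abs_sub_abs_le_abs_sub (X.a s' + X.len s' - t₀ * X.b s')
            (X.a s' + X.len s' - t * X.b s')
          have e : X.a s' + X.len s' - t₀ * X.b s' - (X.a s' + X.len s' - t * X.b s') =
            (t - t₀) * X.b s' := by ring
          rw [e] at this
          linarith
        refine ⟨(s', (M : ℤ), 0), ?_, ?_, ?_⟩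
        · rw [Set.Finite.mem_toFinset]
          exact ⟨h1, hMs2, le_refl _, rfl⟩
        · rw [lfh_hgt X _ l hl (s', (M : ℤ), 0) h1, lfh_hgt X _ l hl (s', m, n) h1]
          exact mul_le_mul_of_nonneg_right hlM hb.le
        · rw [lfh_meets X hX s l hl]
          refine ⟨h1, hMs2, ?_, ?_⟩
          · simp only
            rcases le_abs.1 hA with h | h
            · exfalso
              have e1 : l ^ (M : ℤ) * Φ s' ≤ l ^ m * (X.a s' - t * X.b s') :=
                mul_le_mul hlM h hΦs.le hlm0.le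
              linarith
            · have e1 : l ^ (M : ℤ) * Φ s' ≤ l ^ (M : ℤ) * -(X.a s' - t * X.b s') :=
                mul_le_mul_of_nonneg_left h hlM0.le
              linarith
          · simp only
            rcases le_abs.1 hB' with h | h
            · have e1 : l ^ (M : ℤ) * Φ s' ≤ l ^ (M : ℤ) * (X.a s' + X.len s' - t * X.b s') :=
                mul_le_mul_of_nonneg_left h hlM0.le
              linarith
            · exfalso
              have e1 : l ^ (M : ℤ) * Φ s' ≤ l ^ m * -(X.a s' + X.len s' - t * X.b s') :=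
                mul_le_mul hlM h hΦs.le hlm0.le
              linarith

end DS
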