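import Pool.Agent.H8.DS.TarK
import Pool.Agent.H8.DS.TarA

/-!
LOCAE: almost every direction near a good direction is nice.
-/

namespace DS

open Set Data MeasureTheory

theorem pf_LOCAE (hS : T_SMALL) (hA : T_AE) (hH : T_HL) (hG : T_GN) (hK : T_K6)
    (hF : T_FCGO) : T_LOCAE := by
  intro C S B Q _ _ _ X w hX hW hT M
  choose E hE0 hE using fun m => hS S B M.toFam m
  obtain ⟨ρ, hρ0, hρ1, hρ⟩ := hH C S B Q X w hX hW M
  set N₀ : Set ℝ := (⋃ m, E m) ∪ {t | ¬ X.Tgood t} with hN₀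
  have hN₀0 : volume N₀ = 0 :=
    measure_union_null (measure_iUnion_null hE0) (ae_iff.1 hT)
  set Bad : Set ℝ := {t | t ∈ Ioo M.lo M.hi ∧ ¬ X.Nice t} with hBad
  have key : volume (Bad \ N₀) = 0 := by
    apply measure_null_of_locally_null
    intro t₁ ht₁
    have htI : t₁ ∈ Ioo M.lo M.hi := ht₁.1.1
    have htN : t₁ ∉ N₀ := ht₁.2
    rw [hN₀, mem_union, not_or] at htN
    have htE : ∀ m, t₁ ∉ E m := fun m hm => htN.1 (mem_iUnion.2 ⟨m, hm⟩)
    have htT : X.Tgood t₁ := by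
      by_contra h
      exact htN.2 h
    obtain ⟨n₀, hn₀⟩ := hK C S B Q X w hX hW M t₁ htI htT
    have hL1 : ∀ y y', ¬ X.FC t₁ (n₀ + 1) y y' := by
      rintro y y' ⟨y₁, -, -, h⟩
      exact hn₀ _ _ h
    obtain ⟨ε, hε, hεw⟩ := hE (n₀ + 1) t₁ (htE _)
    obtain ⟨p, r, hpr, hsub⟩ : ∃ p r : ℝ, t₁ ∈ Ioo p r ∧
        Ioo p r ⊆ Ioo M.lo M.hi ∩ {t | |t - t₁| < ε} := by
      refine ⟨max M.lo (t₁ - ε), min M.hi (t₁ + ε), ?_, ?_⟩
      · exact ⟨max_lt htI.1 (by linarith), lt_min htI.2 (by linarith)⟩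
      · intro t ht
        have h1 := lt_of_le_of_lt (le_max_left _ _) ht.1
        have h2 := lt_of_le_of_lt (le_max_right _ _) ht.1
        have h3 := lt_of_lt_of_le ht.2 (min_le_left _ _)
        have h4 := lt_of_lt_of_le ht.2 (min_le_right _ _)
        have h5 : |t - t₁| < ε := by
          rw [abs_lt]
          constructor <;> linarith
        exact ⟨⟨h1, h3⟩, h5⟩
    have hno : ∀ t ∈ Ioo p r, ∀ y y', ¬ X.FC t (n₀ + 1) y y' := by
      intro t ht y y' h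
      obtain ⟨v, hv1, hv2, hv3⟩ := (hF C S B Q X w M t (hsub ht).1 _ _ _).1 h
      obtain ⟨z, z', hz⟩ := hεw t (hsub ht).2 v hv1 ⟨y, y', hv3⟩
      exact hL1 z z' ((hF C S B Q X w M t₁ htI _ _ _).2 ⟨v, hv1, hv2, hz⟩)
    have hae := hA S B Q M.toFam (fun s => X.len s / w s) (n₀ + 1) ρ p r M.qs M.qa M.qb
      (fun s => div_pos (hX.pos s) (hW.pos s))
      (fun b => by
        by_cases hb : X.Hopf (X.comp (X.glue (M.src b)))
        · exact (M.slope_hopf b hb).le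
        · exact (M.slope_flat b hb).le)
      (Nat.succ_pos _) hρ0 hρ1
      (fun t ht v hv y y' hgo => hρ t (hsub ht).1 (n₀ + 1) (hno t ht) v hv y y' hgo)
      M.qa_nonneg
    have hnice : ∀ᵐ t, t ∈ Ioo p r → X.Nice t := by
      filter_upwards [hae] with t ht htp
      obtain ⟨n, hn⟩ := ht htp
      exact hG C S B Q X w hX hW M (n₀ + 1) n ρ (Nat.succ_pos _) hρ0 hρ1 t (hsub htp).1
        (hno t htp) (fun v hv y y' hgo => hρ t (hsub htp).1 (n₀ + 1) (hno t htp) v hv y y' hgo) hn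
    refine ⟨{t | t ∈ Ioo p r ∧ ¬ X.Nice t}, ?_, ?_⟩
    · have h1 : Ioo p r ∈ nhdsWithin t₁ (Bad \ N₀) :=
        mem_nhdsWithin_of_mem_nhds (Ioo_mem_nhds hpr.1 hpr.2)
      filter_upwards [h1, self_mem_nhdsWithin] with t ht1 ht2
      exact ⟨ht1, ht2.1.2⟩
    · rw [ae_iff] at hnice
      refine measure_mono_null ?_ hnice
      intro t ht h
      exact ht.2 (h ht.1)
  have hBad0 : volume Bad = 0 := by
    refine measure_mono_null (t := (Bad \ N₀) ∪ N₀) ?_ (measure_union_null key hN₀0)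
    intro t ht
    by_cases h : t ∈ N₀
    · exact Or.inr h
    · exact Or.inl ⟨ht, h⟩
  rw [ae_iff]
  refine measure_mono_null ?_ hBad0
  intro t ht
  by_contra h
  apply ht
  intro h1
  by_contra h2
  exact h ⟨h1, h2⟩

end DS
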