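import Pool.Agent.H8.DS.Defs

/-!
An example of a surface of the class: the square torus and the Hopf torus of multiplier `2`, each
with one slit, glued crosswise (a surface of genus two).
-/

namespace DS

open Set Data

/-- The flat torus `ℝ²/ℤ²` (component `false`) with the slit from `(0, 0)` to `(1/2, 0)` and the
Hopf torus `(ℝ² ∖ {0})/(z ↦ 2z)` (component `true`) with the slit from `(0, 1)` to `(1/2, 1)`; the
lower side of each slit is glued to the upper side of the other one. -/
noncomputable def exData : Data Bool Bool where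
  kind := fun c => bif c then .hopf 2 else .flat (1, 0) (0, 1)
  comp := fun s => s
  a := fun _ => 0
  b := fun s => bif s then 1 else 0
  len := fun _ => 1 / 2
  glue := Equiv.boolNot

theorem exData_surface : exData.Surface where
  good := by
    intro c
    cases c
    · show (1 : ℝ) * 1 - 0 * 0 ≠ 0
      norm_num
    · show (1 : ℝ) < 2
      norm_num
  pos := by
    intro s
    show (0 : ℝ) < 1 / 2
    norm_num
  disj := by
    intro s s' hs g hg ξ hξ ξ' hξ' h
    have hs' : s = s' := hs
    subst hs'
    refine ⟨rfl, ?_⟩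
    cases s
    · obtain ⟨⟨m, n⟩, rfl⟩ := hg
      have h1 : (0 : ℝ) + ξ * (1 / 2) = 1 * (0 + ξ' * (1 / 2)) + (m * 1 + n * 0) :=
        congrArg Prod.fst h
      have h2 : (0 : ℝ) = 1 * 0 + (m * 0 + n * 1) := congrArg Prod.snd h
      have hm1 : (m : ℝ) < 1 := by linarith [hξ.2, hξ'.1]
      have hm2 : (-1 : ℝ) < m := by linarith [hξ.1, hξ'.2]
      have hn : (n : ℝ) = 0 := by linarith
      have hm3 : m < 1 := by exact_mod_cast hm1
      have hm4 : -1 < m := by exact_mod_cast hm2
      have hm : m = 0 := by omega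
      have hn' : n = 0 := by exact_mod_cast hn
      subst hm
      subst hn'
      show ((1 : ℝ), ((0 : ℤ) : ℝ) * 1 + ((0 : ℤ) : ℝ) * 0, ((0 : ℤ) : ℝ) * 0 + ((0 : ℤ) : ℝ) * 1)
        = (1, 0, 0)
      norm_num
    · obtain ⟨⟨m, n⟩, rfl⟩ := hg
      have h2 : (1 : ℝ) = 2 ^ m * 1 + 0 := congrArg Prod.snd h
      have h3 : (2 : ℝ) ^ m = 1 := by linarith
      show ((2 : ℝ) ^ m, (0 : ℝ), (0 : ℝ)) = (1, 0, 0)
      rw [h3]
  origin := by
    intro s hs ξ hξ h
    cases s
    · exact hs
    · have h2 : (1 : ℝ) = 0 := congrArg Prod.snd h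
      norm_num at h2
  conn := by
    have h : Relation.EqvGen (fun c c' => ∃ s, exData.comp s = c ∧
        exData.comp (exData.glue s) = c') false true := Relation.EqvGen.rel _ _ ⟨false, rfl, rfl⟩
    intro c c'
    cases c <;> cases c'
    · exact Relation.EqvGen.refl _
    · exact h
    · exact h.symm
    · exact Relation.EqvGen.refl _
  hopf := ⟨true, trivial⟩

theorem exData_upper : exData.Upper := by
  intro s _
  cases s
  · exact le_refl (0 : ℝ)
  · exact zero_le_one (α := ℝ)

theorem exData_contracting : exData.Contracting := by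
  refine ⟨fun _ => 1, fun _ => one_pos, ?_, fun _ _ _ _ => rfl, ?_⟩
  · intro s
    rfl
  · intro s s' l hs hl n h
    have hs' : s = s' := hs
    subst hs'
    cases s
    · exact absurd hl (by show Comp.flat _ _ ≠ Comp.hopf _; exact Comp.noConfusion)
    · have h1 : (1 : ℝ) < l ^ n * 1 := h
      exact h1

end DS
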